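import Mathlib
import Pool.Agent.Helper131.Slab.Final2
import Pool.Agent.Helper131.Slab.L_two_dim

set_option autoImplicit false

open MeasureTheory

namespace Pool.Agent.Results.MP_a54a8f_gt.PastFirstTransition

/-- `V(a,t)`: the Lebesgue measure of the slab of the cube `[-1,1]^n` of half-width `t`
in direction `a`. -/
noncomputable def V {n : ℕ} (a : Fin n → ℝ) (t : ℝ) : ENNReal :=
  volume {x : Fin n → ℝ | (∀ i, |x i| ≤ 1) ∧ |∑ i, x i * a i| ≤ t}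

/-- the vector `f_m = (1,...,1,0,...,0)/√m` of `ℝ^n` (with `m` ones) -/
noncomputable def f (n m : ℕ) : Fin n → ℝ :=
  fun i => if (i : ℕ) < m then 1 / Real.sqrt (m : ℝ) else 0

theorem f_unit (n m : ℕ) (hm : 1 ≤ m) (hmn : m ≤ n) : ∑ i, f n m i ^ 2 = 1 := by
  obtain ⟨k, rfl⟩ : ∃ k, n = m + k := ⟨n - m, by omega⟩
  have hm0 : (0 : ℝ) < m := by exact_mod_cast hm
  rw [Fin.sum_univ_add]
  have e1 : ∀ i : Fin m, f (m + k) m (Fin.castAdd k i) ^ 2 = 1 / m := by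
    intro i
    unfold f
    rw [if_pos (by simp), div_pow, Real.sq_sqrt hm0.le, one_pow]
  have e2 : ∀ i : Fin k, f (m + k) m (Fin.natAdd m i) ^ 2 = 0 := by
    intro i
    unfold f
    rw [if_neg (by simp)]
    norm_num
  rw [Finset.sum_congr rfl (fun i _ => e1 i), Finset.sum_congr rfl (fun i _ => e2 i)]
  simp
  field_simp

theorem V_two (n : ℕ) (hn : 2 ≤ n) (t : ℝ) (ht0 : 0 ≤ t) (ht1 : t ≤ Real.sqrt 2) :
    V (f n 2) t = ENNReal.ofReal (2 ^ n * Pool.Agent.Helper131.Slab.gg t) := by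
  obtain ⟨m, rfl⟩ : ∃ m, n = m + 2 := ⟨n - 2, by omega⟩
  have h := Pool.Agent.Helper131.Slab.V_f2 m t ht0 ht1
  unfold V f
  exact_mod_cast h

theorem V_three (n : ℕ) (hn : 3 ≤ n) (t : ℝ) (ht0 : 1 ≤ t) (ht1 : t ≤ Real.sqrt 3) :
    V (f n 3) t = ENNReal.ofReal (2 ^ n * Pool.Agent.Helper131.Slab.gg3 t) := by
  obtain ⟨m, rfl⟩ : ∃ m, n = m + 3 := ⟨n - 3, by omega⟩
  have h := Pool.Agent.Helper131.Slab.V_f3 m t ht0 ht1
  unfold V f
  exact_mod_cast h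

open Pool.Agent.Helper131.Slab in
theorem min_one (n : ℕ) (hn : 1 ≤ n) (t : ℝ) (ht0 : 0 < t) (ht : t ≤ 2 * Real.sqrt 2 - 2) :
    IsLeast ((fun a => V a t) '' {a : Fin n → ℝ | ∑ i, a i ^ 2 = 1}) (V (f n 1) t) := by
  have hs := sqrt2_bounds
  have hV : V (f n 1) t = ENNReal.ofReal (2 ^ n * t) := by
    have h := V_f1 n hn t ht0.le (by linarith [hs.2])
    unfold V f
    simpa using h
  refine ⟨⟨f n 1, f_unit n 1 le_rfl hn, rfl⟩, ?_⟩
  rintro v ⟨a, ha, rfl⟩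
  rw [hV]
  exact vol_ge_small hn a ha t ht0 ht

open Pool.Agent.Helper131.Slab in
theorem min_two (n : ℕ) (hn : 2 ≤ n) (t : ℝ) (ht0 : 2 * Real.sqrt 2 - 2 ≤ t) (ht1 : t ≤ 1) :
    IsLeast ((fun a => V a t) '' {a : Fin n → ℝ | ∑ i, a i ^ 2 = 1}) (V (f n 2) t) := by
  have hs := sqrt2_bounds
  refine ⟨⟨f n 2, f_unit n 2 (by norm_num) hn, rfl⟩, ?_⟩
  rintro v ⟨a, ha, rfl⟩
  rw [V_two n hn t (by linarith [hs.1]) (by linarith [hs.1])]
  exact vol_ge_large (by omega) a ha t ht0 ht1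

/-- one-dimensional case: all unit vectors give the same slab -/
theorem dim_one (t : ℝ) (a : Fin 1 → ℝ) (ha : ∑ i, a i ^ 2 = 1) : V (f 1 1) t = V a t := by
  have h : a 0 ^ 2 = 1 := by simpa using ha
  unfold V f
  congr 1
  ext x
  have h2 : |a 0| = 1 := by
    rw [← Real.sqrt_sq_eq_abs, h, Real.sqrt_one]
  simp only [Set.mem_ofPred_eq, Fin.sum_univ_one]
  rw [abs_mul, abs_mul, h2]
  simp

open Pool.Agent.Helper131.Slab in
/-- For every dimension `n ≥ 1` and every half-width `0 < t ≤ 1.015` the minimum of the slab volume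
`V(a,t)` over the unit vectors `a` is attained at one of the vectors `f_m`, `1 ≤ m ≤ n`. -/
theorem result (n : ℕ) (hn : 1 ≤ n) (t : ℝ) (ht0 : 0 < t) (ht1 : t ≤ 1.015) :
    ∃ m : ℕ, 1 ≤ m ∧ m ≤ n ∧
      IsLeast ((fun a => V a t) '' {a : Fin n → ℝ | ∑ i, a i ^ 2 = 1}) (V (f n m) t) := by
  have hs2 := sqrt2_bounds
  have hs3 := sqrt3_bounds
  norm_num at hs2 hs3
  have ht1' : t ≤ 203 / 200 := by norm_num at ht1; exact ht1
  rcases le_total t (2 * Real.sqrt 2 - 2) with h | h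
  · exact ⟨1, le_rfl, hn, min_one n hn t ht0 h⟩
  rcases Nat.lt_or_ge n 2 with h2 | h2
  · obtain rfl : n = 1 := by omega
    refine ⟨1, le_rfl, le_rfl, ⟨f 1 1, f_unit 1 1 le_rfl le_rfl, rfl⟩, ?_⟩
    rintro v ⟨a, ha, rfl⟩
    exact (dim_one t a ha).le
  rcases le_or_gt t 1 with h1 | h1
  · exact ⟨2, by norm_num, h2, min_two n h2 t h h1⟩
  rcases Nat.lt_or_ge n 3 with h3 | h3
  · obtain rfl : n = 2 := by omega
    refine ⟨2, by norm_num, le_rfl, ⟨f 2 2, f_unit 2 2 (by norm_num) le_rfl, rfl⟩, ?_⟩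
    rintro v ⟨a, ha, rfl⟩
    show V (f 2 2) t ≤ V a t
    rw [V_two 2 le_rfl t (by linarith) (by linarith)]
    exact two_dim a ha t h1.le ht1
  rcases le_total (gg t) (gg3 t) with h4 | h4
  · refine ⟨2, by norm_num, h2, ⟨f n 2, f_unit n 2 (by norm_num) h2, rfl⟩, ?_⟩
    rintro v ⟨a, ha, rfl⟩
    show V (f n 2) t ≤ V a t
    rw [V_two n h2 t (by linarith) (by linarith)]
    have h8 := vol_ge_next hn a ha t h1 ht1
    rwa [min_eq_left h4] at h8
  · refine ⟨3, by norm_num, h3, ⟨f n 3, f_unit n 3 (by norm_num) h3, rfl⟩, ?_⟩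
    rintro v ⟨a, ha, rfl⟩
    show V (f n 3) t ≤ V a t
    rw [V_three n h3 t (by linarith) (by linarith)]
    have h8 := vol_ge_next hn a ha t h1 ht1
    rwa [min_eq_right h4] at h8

end Pool.Agent.Results.MP_a54a8f_gt.PastFirstTransition
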